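import Pool.Agent.Lib.helper26.BnG

namespace Pool.Agent.Results.MP_e5a0e3_pr.Percolates
open Pool.Agent.Lib.helper26.BnG

theorem result (d : ℕ) (hd : 18 ≤ d) : 0 < θ d d := by
  obtain ⟨c, rfl⟩ := Nat.exists_eq_add_of_le' hd
  refine upper (by omega) (by omega) ?_
  rw [show c + 18 - 1 = c + 17 by omega]; nlinarith

end Pool.Agent.Results.MP_e5a0e3_pr.Percolates
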